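import Pool.Agent.Run7.h95.NP.Main
import Pool.Agent.Run7.h95.LF.Frac

/-!
# Exceptional tuples of fractions near products of linear forms with small coefficients
-/

set_option autoImplicit false

open Finset MeasureTheory

namespace Run7.h95.NP

open Run7.h469.Vk (Hits Few Lacunary Generic Avoids)
open Run7.h469.Vm (ProductIn)
open Run7.h95.LF (ht htt dn dnt norm_dn norm_dnt one_le_ht)
open Pool.Agent.R482.ST (dyadic finite_rat)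

/-- **The abstract theorem.** -/
theorem rel_near {T : Type} {m : ℕ} (hm : 1 ≤ m) (I : Set T) (V : T → Fin m → ℝ) (D : T → ℝ → Prop)
    (Rel : T → ℝ → ℝ → Prop)
    (hD : ∀ t X, ‖V t‖ ≤ X → D t X)
    (hR : ∀ t M δ M' δ', M ≤ M' → δ ≤ δ' → Rel t M δ → Rel t M' δ')
    (hF : ∀ X : ℝ, {t | ‖V t‖ ≤ X}.Finite) (hV : ∀ t, 1 ≤ ‖V t‖) {A s : ℝ} (hA : 0 ≤ A) (hs : 0 < s)
    (hcount : ∃ B C : ℝ, ∀ X : ℝ, 1 ≤ X → {t | t ∈ I ∧ D t X ∧ Rel t (X ^ A) (X ^ (-B))}.Finite ∧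
      ({t | t ∈ I ∧ D t X ∧ Rel t (X ^ A) (X ^ (-B))}.ncard : ℝ) ≤ C * X ^ s) :
    ∃ B : ℝ, ∀ b : ℕ, 1 ≤ b → ∀ θ R c' : ℝ, 0 ≤ θ → 0 ≤ R → 0 ≤ c' → c' ≤ 1 → c' < b * (m - s - m * θ) →
      ∃ C' : ℝ, 0 ≤ C' ∧ ∀ W : Set (Fin m → ℤ),
        (∀ z ∈ W, ∃ t ∈ I, Close R θ z (fun l => |V t l|) ∧ Rel t (‖V t‖ ^ A) (‖V t‖ ^ (-B))) →
        (∀ d X K : ℕ, 1 ≤ X → 1 ≤ K →
          (({x : Fin d → ℤ | (∀ j, |x j| ≤ X) ∧ x ∈ Hits (ProductIn b W) d K}.ncard : ℕ) : ℝ) ≤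
            C' * (((d : ℝ) + 1) ^ (m * b) * 3 ^ ((m * b + 1) * (d + 1))) * (K : ℝ) ^ (m * b * (d + 2)) *
              (X : ℝ) ^ ((d : ℝ) - c')) ∧
        (∀ d : ℕ, 1 ≤ d → ∀ N : ℕ → ℝ, Lacunary N → ∀ η : ℝ, 0 ≤ η →
          Generic ((d : ℝ) - c' + m * b * (d + 2) * η) (fun α : Fin d → ℝ => Avoids (ProductIn b W) N η α)) ∧
        ∀ d : ℕ, 1 ≤ d → ∀ N : ℕ → ℝ, Lacunary N → ∀ η : ℝ, 0 ≤ η → m * b * (d + 2) * η < c' →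
          ∀ᵐ α : Fin d → ℝ, Avoids (ProductIn b W) N η α := by
  obtain ⟨B, C, hC⟩ := hcount
  refine ⟨|B| + 1, fun b hb θ R c' hθ hRR hc0 hc1 hc' => ?_⟩
  obtain ⟨C', hC'⟩ := dyadic I V D Rel hD hR hF hA hs hC
  have hm1 : (1 : ℝ) ≤ m := by exact_mod_cast hm
  have hb1 : (1 : ℝ) ≤ b := by exact_mod_cast hb
  have hθ1 : θ ≤ 1 := by
    by_contra hcon
    push Not at hcon
    have h1 : (m : ℝ) - s - m * θ ≤ 0 := by nlinarith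
    have : (b : ℝ) * (m - s - m * θ) ≤ 0 := mul_nonpos_of_nonneg_of_nonpos (by linarith) h1
    linarith
  obtain ⟨C'', hC'', key⟩ := near_products (k := m) (b := b) hm hb (s := s) (A := R) hθ hθ1 hRR (abs_nonneg C') hc0 hc1 hc'
  refine ⟨C'', hC'', fun W hW => key T (fun t => t ∈ I ∧ Rel t ((2 * ‖V t‖) ^ A) ((‖V t‖ / 2) ^ (-(|B| + 1))))
    (fun t l => |V t l|) W ?_ ?_⟩
  · intro X hX F hF
    have hX0 : 0 < X := by linarith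
    obtain ⟨f1, f2⟩ := hC' X hX
    have h3 := Set.ncard_le_ncard (s := (F : Set T))
      (t := {t | (t ∈ I ∧ Rel t ((2 * ‖V t‖) ^ A) ((‖V t‖ / 2) ^ (-(|B| + 1)))) ∧ ‖V t‖ ≤ X})
      (fun i hi => ⟨(hF i hi).1, (pi_norm_le_iff_of_nonneg hX0.le).2 fun j => (hF i hi).2 j⟩) f1
    rw [Set.ncard_coe_finset] at h3
    calc (F.card : ℝ) ≤ _ := by exact_mod_cast h3
      _ ≤ C' * X ^ s := f2
      _ ≤ |C'| * X ^ s := mul_le_mul_of_nonneg_right (le_abs_self C') (by positivity)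
  · intro z hz
    obtain ⟨t, ht, htc, hRel⟩ := hW z hz
    have g7 : 0 < ‖V t‖ := lt_of_lt_of_le one_pos (hV t)
    refine ⟨t, ⟨ht, hR t _ _ _ _ ?_ ?_ hRel⟩, htc⟩
    · exact Real.rpow_le_rpow g7.le (by linarith) hA
    · exact Real.rpow_le_rpow_of_nonpos (by positivity) (by linarith) (by linarith [abs_nonneg B])

/-- polynomial relations between numbers attached to one fraction -/
theorem poly_one_near {ι₀ : Type} (lo hi : ℝ) (N : ℚ → MvPolynomial ι₀ ℤ → ℝ) (d : ℕ) {A β : ℝ} (hA : 0 ≤ A)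
    (hβ : 0 < β) (hcount : ∃ B C : ℝ, ∀ T : ℝ, 1 ≤ T →
      {q : ℚ | lo ≤ q ∧ q ≤ hi ∧ (q.den : ℝ) ≤ T ∧
        ∃ P : MvPolynomial ι₀ ℤ, P ≠ 0 ∧ (∀ x, P.degreeOf x ≤ d) ∧ (∀ s, |((P.coeff s : ℤ) : ℝ)| ≤ T ^ A) ∧
          N q P ≤ T ^ (-B)}.Finite ∧
      ({q : ℚ | lo ≤ q ∧ q ≤ hi ∧ (q.den : ℝ) ≤ T ∧
        ∃ P : MvPolynomial ι₀ ℤ, P ≠ 0 ∧ (∀ x, P.degreeOf x ≤ d) ∧ (∀ s, |((P.coeff s : ℤ) : ℝ)| ≤ T ^ A) ∧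
          N q P ≤ T ^ (-B)}.ncard : ℝ) ≤ C * T ^ β) :
    ∃ B : ℝ, ∀ b : ℕ, 1 ≤ b → ∀ θ R c' : ℝ, 0 ≤ θ → 0 ≤ R → 0 ≤ c' → c' ≤ 1 → c' < b * (2 - β - 2 * θ) →
      ∃ C' : ℝ, ∀ W : Set (Fin 2 → ℤ),
        (∀ t ∈ W, ∃ q : ℚ, lo ≤ q ∧ q ≤ hi ∧ |(q.den : ℝ) - (|(t 0 : ℝ)|)| ≤ R * ‖fun i => (t i : ℝ)‖ ^ θ ∧
          |(|(q.num : ℝ)|) - (|(t 1 : ℝ)|)| ≤ R * ‖fun i => (t i : ℝ)‖ ^ θ ∧
          ∃ P : MvPolynomial ι₀ ℤ, P ≠ 0 ∧ (∀ x, P.degreeOf x ≤ d) ∧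
            (∀ s, |((P.coeff s : ℤ) : ℝ)| ≤ (ht q : ℝ) ^ A) ∧ N q P ≤ (ht q : ℝ) ^ (-B)) →
        (∀ d X K : ℕ, 1 ≤ X → 1 ≤ K →
          (({x : Fin d → ℤ | (∀ j, |x j| ≤ X) ∧ x ∈ Hits (ProductIn b W) d K}.ncard : ℕ) : ℝ) ≤
            C' * (((d : ℝ) + 1) ^ (2 * b) * 3 ^ ((2 * b + 1) * (d + 1))) * (K : ℝ) ^ (2 * b * (d + 2)) *
              (X : ℝ) ^ ((d : ℝ) - c')) ∧
        (∀ d : ℕ, 1 ≤ d → ∀ N : ℕ → ℝ, Lacunary N → ∀ η : ℝ, 0 ≤ η →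
          Generic ((d : ℝ) - c' + 2 * b * (d + 2) * η) (fun α : Fin d → ℝ => Avoids (ProductIn b W) N η α)) ∧
        ∀ d : ℕ, 1 ≤ d → ∀ N : ℕ → ℝ, Lacunary N → ∀ η : ℝ, 0 ≤ η → 2 * b * (d + 2) * η < c' →
          ∀ᵐ α : Fin d → ℝ, Avoids (ProductIn b W) N η α := by
  obtain ⟨B0, C0, h0⟩ := hcount
  obtain ⟨B, h⟩ := rel_near (m := 2) (by norm_num) {q : ℚ | lo ≤ q ∧ q ≤ hi} dn (fun q X => (q.den : ℝ) ≤ X)
    (fun q M δ => ∃ P : MvPolynomial ι₀ ℤ, P ≠ 0 ∧ (∀ x, P.degreeOf x ≤ d) ∧ (∀ s, |((P.coeff s : ℤ) : ℝ)| ≤ M) ∧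
      N q P ≤ δ)
    (fun q X h => by
      rw [norm_dn] at h
      exact le_trans (by exact_mod_cast le_max_right q.num.natAbs q.den) h)
    (fun q M δ M' δ' h1 h2 h3 => by
      obtain ⟨P, g1, g2, g3, g4⟩ := h3
      exact ⟨P, g1, g2, fun s => (g3 s).trans h1, g4.trans h2⟩)
    (fun X => by
      refine (finite_rat X).subset fun q hq => ?_
      have hq : ‖dn q‖ ≤ X := hq
      rw [norm_dn] at hq
      refine ⟨le_trans (by exact_mod_cast le_max_right q.num.natAbs q.den) hq, ?_⟩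
      have ha : |(q.num : ℝ)| = (q.num.natAbs : ℝ) := by
        rw [← Int.cast_abs, Int.abs_eq_natAbs]
        simp
      rw [ha]
      exact le_trans (by exact_mod_cast le_max_left q.num.natAbs q.den) hq)
    (fun q => by
      rw [norm_dn]
      exact one_le_ht q) hA (s := β) hβ
    ⟨B0, C0, fun X hX => by
      have he : {t : ℚ | t ∈ {q : ℚ | lo ≤ q ∧ q ≤ hi} ∧ (t.den : ℝ) ≤ X ∧
          ∃ P : MvPolynomial ι₀ ℤ, P ≠ 0 ∧ (∀ x, P.degreeOf x ≤ d) ∧ (∀ s, |((P.coeff s : ℤ) : ℝ)| ≤ X ^ A) ∧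
            N t P ≤ X ^ (-B0)} =
          {q : ℚ | lo ≤ q ∧ q ≤ hi ∧ (q.den : ℝ) ≤ X ∧
            ∃ P : MvPolynomial ι₀ ℤ, P ≠ 0 ∧ (∀ x, P.degreeOf x ≤ d) ∧ (∀ s, |((P.coeff s : ℤ) : ℝ)| ≤ X ^ A) ∧
              N q P ≤ X ^ (-B0)} := by
        ext q
        constructor
        · rintro ⟨⟨h1, h2⟩, h3⟩
          exact ⟨h1, h2, h3⟩
        · rintro ⟨h1, h2, h3⟩
          exact ⟨⟨h1, h2⟩, h3⟩
      rw [he]
      exact h0 X hX⟩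
  refine ⟨B, fun b hb θ R c' hθ hR hc0 hc1 hc' => ?_⟩
  obtain ⟨C', -, key⟩ := h b hb θ R c' hθ hR hc0 hc1 (by push_cast; exact hc')
  refine ⟨C', fun W hW => ?_⟩
  have h1 := key W (fun z hz => by
    obtain ⟨q, h1, h2, h3, h4, h5⟩ := hW z hz
    refine ⟨q, ⟨h1, h2⟩, fun l => ?_, ?_⟩
    · fin_cases l
      · have e : |dn q 0| = (q.den : ℝ) := abs_of_nonneg (Nat.cast_nonneg _)
        show |(|dn q 0|) - (|(z 0 : ℝ)|)| ≤ _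
        rw [e]
        exact h3
      · exact h4
    · rw [norm_dn]
      exact h5)
  simpa only [Nat.cast_ofNat] using h1

/-- polynomial relations between numbers attached to a tuple of fractions -/
theorem poly_tuple_near {n : ℕ} (hn : 1 ≤ n) {ι₀ : Type} (lo hi : Fin n → ℝ)
    (N : (Fin n → ℚ) → MvPolynomial ι₀ ℤ → ℝ) (d : ℕ) {A β : ℝ} (hA : 0 ≤ A) (hβ : 0 < β)
    (hcount : ∃ B C : ℝ, ∀ T : ℝ, 1 ≤ T →
      {q : Fin n → ℚ | (∀ j, lo j ≤ q j ∧ q j ≤ hi j ∧ ((q j).den : ℝ) ≤ T) ∧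
        ∃ P : MvPolynomial ι₀ ℤ, P ≠ 0 ∧ (∀ x, P.degreeOf x ≤ d) ∧ (∀ s, |((P.coeff s : ℤ) : ℝ)| ≤ T ^ A) ∧
          N q P ≤ T ^ (-B)}.Finite ∧
      ({q : Fin n → ℚ | (∀ j, lo j ≤ q j ∧ q j ≤ hi j ∧ ((q j).den : ℝ) ≤ T) ∧
        ∃ P : MvPolynomial ι₀ ℤ, P ≠ 0 ∧ (∀ x, P.degreeOf x ≤ d) ∧ (∀ s, |((P.coeff s : ℤ) : ℝ)| ≤ T ^ A) ∧
          N q P ≤ T ^ (-B)}.ncard : ℝ) ≤ C * T ^ (2 * ((n : ℝ) - 1) + β)) :
    ∃ B : ℝ, ∀ b : ℕ, 1 ≤ b → ∀ θ R c' : ℝ, 0 ≤ θ → 0 ≤ R → 0 ≤ c' → c' ≤ 1 → c' < b * (2 - β - 2 * n * θ) →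
      ∃ C' : ℝ, ∀ W : Set (Fin (n * 2) → ℤ),
        (∀ t ∈ W, ∃ q : Fin n → ℚ, (∀ j, lo j ≤ q j ∧ q j ≤ hi j) ∧
          (∀ j, |((q j).den : ℝ) - (|(t (finProdFinEquiv (j, 0)) : ℝ)|)| ≤ R * ‖fun i => (t i : ℝ)‖ ^ θ ∧
            |(|((q j).num : ℝ)|) - (|(t (finProdFinEquiv (j, 1)) : ℝ)|)| ≤ R * ‖fun i => (t i : ℝ)‖ ^ θ) ∧
          ∃ P : MvPolynomial ι₀ ℤ, P ≠ 0 ∧ (∀ x, P.degreeOf x ≤ d) ∧
            (∀ s, |((P.coeff s : ℤ) : ℝ)| ≤ (htt q : ℝ) ^ A) ∧ N q P ≤ (htt q : ℝ) ^ (-B)) →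
        (∀ d X K : ℕ, 1 ≤ X → 1 ≤ K →
          (({x : Fin d → ℤ | (∀ j, |x j| ≤ X) ∧ x ∈ Hits (ProductIn b W) d K}.ncard : ℕ) : ℝ) ≤
            C' * (((d : ℝ) + 1) ^ (n * 2 * b) * 3 ^ ((n * 2 * b + 1) * (d + 1))) * (K : ℝ) ^ (n * 2 * b * (d + 2)) *
              (X : ℝ) ^ ((d : ℝ) - c')) ∧
        (∀ d : ℕ, 1 ≤ d → ∀ N : ℕ → ℝ, Lacunary N → ∀ η : ℝ, 0 ≤ η →
          Generic ((d : ℝ) - c' + n * 2 * b * (d + 2) * η) (fun α : Fin d → ℝ => Avoids (ProductIn b W) N η α)) ∧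
        ∀ d : ℕ, 1 ≤ d → ∀ N : ℕ → ℝ, Lacunary N → ∀ η : ℝ, 0 ≤ η → n * 2 * b * (d + 2) * η < c' →
          ∀ᵐ α : Fin d → ℝ, Avoids (ProductIn b W) N η α := by
  have hn' : (1 : ℝ) ≤ n := by exact_mod_cast hn
  obtain ⟨B0, C0, h0⟩ := hcount
  have hj : ∀ (q : Fin n → ℚ) (j : Fin n), (ht (q j) : ℝ) ≤ (htt q : ℝ) := by
    intro q j
    exact_mod_cast Finset.le_sup (f := fun j => ht (q j)) (mem_univ j)
  have hden : ∀ q : ℚ, (q.den : ℝ) ≤ (ht q : ℝ) := fun q => by exact_mod_cast le_max_right q.num.natAbs q.den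
  have hnum : ∀ q : ℚ, |(q.num : ℝ)| ≤ (ht q : ℝ) := fun q => by
    have ha : |(q.num : ℝ)| = (q.num.natAbs : ℝ) := by
      rw [← Int.cast_abs, Int.abs_eq_natAbs]
      simp
    rw [ha]
    exact_mod_cast le_max_left q.num.natAbs q.den
  obtain ⟨B, h⟩ := rel_near (m := n * 2) (by omega) {q : Fin n → ℚ | ∀ j, lo j ≤ q j ∧ q j ≤ hi j} dnt
    (fun q X => ∀ j, ((q j).den : ℝ) ≤ X)
    (fun q M δ => ∃ P : MvPolynomial ι₀ ℤ, P ≠ 0 ∧ (∀ x, P.degreeOf x ≤ d) ∧ (∀ s, |((P.coeff s : ℤ) : ℝ)| ≤ M) ∧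
      N q P ≤ δ)
    (fun q X h j => by
      rw [norm_dnt] at h
      exact ((hden _).trans (hj q j)).trans h)
    (fun q M δ M' δ' h1 h2 h3 => by
      obtain ⟨P, g1, g2, g3, g4⟩ := h3
      exact ⟨P, g1, g2, fun s => (g3 s).trans h1, g4.trans h2⟩)
    (fun X => by
      refine (Set.Finite.pi' fun j : Fin n => finite_rat X).subset fun q hq j => ?_
      have hq : ‖dnt q‖ ≤ X := hq
      rw [norm_dnt] at hq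
      exact ⟨((hden _).trans (hj q j)).trans hq, ((hnum _).trans (hj q j)).trans hq⟩)
    (fun q => by
      rw [norm_dnt]
      exact (one_le_ht (q ⟨0, hn⟩)).trans (hj q _)) hA (s := 2 * ((n : ℝ) - 1) + β) (by linarith)
    ⟨B0, C0, fun X hX => by
      have he : {t : Fin n → ℚ | t ∈ {q : Fin n → ℚ | ∀ j, lo j ≤ q j ∧ q j ≤ hi j} ∧ (∀ j, ((t j).den : ℝ) ≤ X) ∧
          ∃ P : MvPolynomial ι₀ ℤ, P ≠ 0 ∧ (∀ x, P.degreeOf x ≤ d) ∧ (∀ s, |((P.coeff s : ℤ) : ℝ)| ≤ X ^ A) ∧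
            N t P ≤ X ^ (-B0)} =
          {q : Fin n → ℚ | (∀ j, lo j ≤ q j ∧ q j ≤ hi j ∧ ((q j).den : ℝ) ≤ X) ∧
            ∃ P : MvPolynomial ι₀ ℤ, P ≠ 0 ∧ (∀ x, P.degreeOf x ≤ d) ∧ (∀ s, |((P.coeff s : ℤ) : ℝ)| ≤ X ^ A) ∧
              N q P ≤ X ^ (-B0)} := by
        ext q
        constructor
        · rintro ⟨h1, h2, h3⟩
          exact ⟨fun j => ⟨(h1 j).1, (h1 j).2, h2 j⟩, h3⟩
        · rintro ⟨h1, h3⟩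
          exact ⟨fun j => ⟨(h1 j).1, (h1 j).2.1⟩, fun j => (h1 j).2.2, h3⟩
      rw [he]
      exact h0 X hX⟩
  refine ⟨B, fun b hb θ R c' hθ hR hc0 hc1 hc' => ?_⟩
  obtain ⟨C', -, key⟩ := h b hb θ R c' hθ hR hc0 hc1 (by
    push_cast
    have e : (n : ℝ) * 2 - (2 * ((n : ℝ) - 1) + β) - n * 2 * θ = 2 - β - 2 * n * θ := by ring
    rw [e]
    exact hc')
  refine ⟨C', fun W hW => ?_⟩
  have h1 := key W (fun z hz => by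
    obtain ⟨q, h1, h2, h5⟩ := hW z hz
    refine ⟨q, h1, fun l => ?_, ?_⟩
    · obtain ⟨⟨j, e⟩, rfl⟩ := finProdFinEquiv.surjective l
      have hd : dnt q (finProdFinEquiv (j, e)) = dn (q j) e := by
        unfold dnt
        rw [Equiv.symm_apply_apply]
      show |(|dnt q (finProdFinEquiv (j, e))|) - (|(z (finProdFinEquiv (j, e)) : ℝ)|)| ≤ _
      rw [hd]
      fin_cases e
      · have e : |dn (q j) 0| = ((q j).den : ℝ) := abs_of_nonneg (Nat.cast_nonneg _)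
        show |(|dn (q j) 0|) - (|(z (finProdFinEquiv (j, 0)) : ℝ)|)| ≤ _
        rw [e]
        exact (h2 j).1
      · exact (h2 j).2
    · rw [norm_dnt]
      exact h5)
  simpa only [Nat.cast_mul, Nat.cast_ofNat] using h1

end Run7.h95.NP
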