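import Pool.Agent.Run7.h469.Vm

/-!
# Objects whose sizes are near the products of linear forms with small coefficients

Few objects have bad sizes up to `X`; then few tuples of integers are near the tuple of the sizes of a bad object, and the
theorems on products of linear forms of `Run7/h469/Vm` apply.
-/

set_option autoImplicit false

namespace Run7.h95.NP

open Finset MeasureTheory
open Run7.h469.Vk (Hits Few Lacunary Generic Avoids)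
open Run7.h469.Vm (ProductIn products_of_forms)

/-- The vector `u` is close to the vector of the absolute values of the coordinates of `t`: the coordinates differ by at most
`A ‖t‖ ^ θ`. -/
def Close {k : ℕ} (A θ : ℝ) (t : Fin k → ℤ) (u : Fin k → ℝ) : Prop :=
  ∀ j, |u j - (|(t j : ℝ)|)| ≤ A * ‖fun i => (t i : ℝ)‖ ^ θ

/-- integers with absolute value near a number -/
lemma card_near (u R : ℝ) (hR : 0 ≤ R) : ∃ S : Finset ℤ, (∀ z : ℤ, |u - (|(z : ℝ)|)| ≤ R → z ∈ S) ∧ (S.card : ℝ) ≤ 4 * R + 2 := by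
  classical
  refine ⟨Icc ⌈u - R⌉ ⌊u + R⌋ ∪ (Icc ⌈u - R⌉ ⌊u + R⌋).image (fun z => -z), fun z hz => ?_, ?_⟩
  · rw [abs_le] at hz
    rw [mem_union, mem_image]
    rcases le_or_gt 0 z with h | h
    · left
      have h1 : |(z : ℝ)| = z := abs_of_nonneg (by exact_mod_cast h)
      rw [h1] at hz
      rw [mem_Icc]
      exact ⟨Int.ceil_le.2 (by linarith), Int.le_floor.2 (by linarith)⟩
    · right
      have h1 : |(z : ℝ)| = -z := abs_of_neg (by exact_mod_cast h)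
      rw [h1] at hz
      refine ⟨-z, ?_, neg_neg z⟩
      rw [mem_Icc]
      exact ⟨Int.ceil_le.2 (by push_cast; linarith), Int.le_floor.2 (by push_cast; linarith)⟩
  · have h1 : ((Icc ⌈u - R⌉ ⌊u + R⌋).card : ℝ) ≤ 2 * R + 1 := by
      rw [Int.card_Icc]
      have h2 : ((⌊u + R⌋ + 1 - ⌈u - R⌉).toNat : ℝ) = max ((⌊u + R⌋ : ℝ) + 1 - ⌈u - R⌉) 0 := by
        have h3 : (((⌊u + R⌋ + 1 - ⌈u - R⌉).toNat : ℤ) : ℝ) = ((max (⌊u + R⌋ + 1 - ⌈u - R⌉) 0 : ℤ) : ℝ) := by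
          rw [Int.toNat_eq_max]
        push_cast at h3
        exact_mod_cast h3
      rw [h2]
      apply max_le _ (by linarith)
      have h4 := Int.floor_le (u + R)
      have h5 := Int.le_ceil (u - R)
      linarith
    have h2 : ((Icc ⌈u - R⌉ ⌊u + R⌋ ∪ (Icc ⌈u - R⌉ ⌊u + R⌋).image (fun z => -z)).card : ℝ) ≤
        ((Icc ⌈u - R⌉ ⌊u + R⌋).card : ℝ) + ((Icc ⌈u - R⌉ ⌊u + R⌋).card : ℝ) := by
      have h3 := card_union_le (Icc ⌈u - R⌉ ⌊u + R⌋) ((Icc ⌈u - R⌉ ⌊u + R⌋).image (fun z => -z))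
      have h4 : ((Icc ⌈u - R⌉ ⌊u + R⌋).image (fun z => -z)).card ≤ (Icc ⌈u - R⌉ ⌊u + R⌋).card := card_image_le
      exact_mod_cast h3.trans (Nat.add_le_add_left h4 _)
    linarith

/-- **Counting.** Few tuples of integers are close to the tuple of the sizes of a bad object. -/
theorem few_close {k : ℕ} {s θ A C : ℝ} (hθ : 0 ≤ θ) (hθ1 : θ ≤ 1) (hA : 0 ≤ A) (hC : 0 ≤ C) {ι : Type*}
    {Bad : ι → Prop} {φ : ι → Fin k → ℝ}
    (h : ∀ X : ℝ, 1 ≤ X → ∀ F : Finset ι, (∀ i ∈ F, Bad i ∧ ∀ j, φ i j ≤ X) → (F.card : ℝ) ≤ C * X ^ s) :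
    Few (C * (1 + A) ^ s * (4 * A + 2) ^ k) (s + k * θ) {t | ∃ i, Bad i ∧ Close A θ t (φ i)} := by
  classical
  intro T hT F hF
  have hT1 : (1 : ℝ) ≤ T := by exact_mod_cast hT
  have hT0 : (0 : ℝ) < T := by linarith
  rcases F.eq_empty_or_nonempty with rfl | ⟨t₀, ht₀⟩
  · rw [card_empty]
    push_cast
    positivity
  obtain ⟨i₀, -, -⟩ := (hF t₀ ht₀).1
  have : Nonempty ι := ⟨i₀⟩
  have hF1 : ∀ t ∈ F, ∃ i, Bad i ∧ Close A θ t (φ i) := fun t ht => (hF t ht).1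
  choose! g hg using hF1
  have hTθ : (1 : ℝ) ≤ (T : ℝ) ^ θ := Real.one_le_rpow hT1 hθ
  have hTθ1 : (T : ℝ) ^ θ ≤ T := by
    calc (T : ℝ) ^ θ ≤ (T : ℝ) ^ (1 : ℝ) := Real.rpow_le_rpow_of_exponent_le hT1 hθ1
      _ = T := Real.rpow_one _
  have hn : ∀ t ∈ F, ‖fun i => (t i : ℝ)‖ ^ θ ≤ (T : ℝ) ^ θ := by
    intro t ht
    apply Real.rpow_le_rpow (norm_nonneg _) _ hθ
    rw [pi_norm_le_iff_of_nonneg hT0.le]
    intro j
    rw [Real.norm_eq_abs]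
    have := (hF t ht).2 j
    exact_mod_cast this
  have hcl : ∀ t ∈ F, ∀ j, |φ (g t) j - (|(t j : ℝ)|)| ≤ A * (T : ℝ) ^ θ := fun t ht j =>
    ((hg t ht).2 j).trans (mul_le_mul_of_nonneg_left (hn t ht) hA)
  -- the images
  have hI : ((F.image g).card : ℝ) ≤ C * ((1 + A) * T) ^ s := by
    apply h _ (by nlinarith)
    intro i hi
    rw [mem_image] at hi
    obtain ⟨t, ht, rfl⟩ := hi
    refine ⟨(hg t ht).1, fun j => ?_⟩
    have h1 := abs_le.1 (hcl t ht j)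
    have h2 : |(t j : ℝ)| ≤ T := by exact_mod_cast (hF t ht).2 j
    nlinarith
  -- the fibres
  have hfib : ∀ w ∈ F.image g, (((F.filter (fun t => g t = w)).card : ℕ) : ℝ) ≤ ((4 * A + 2) * (T : ℝ) ^ θ) ^ k := by
    intro w _
    choose S hS1 hS2 using fun j : Fin k => card_near (φ w j) (A * (T : ℝ) ^ θ) (by positivity)
    have h1 : F.filter (fun t => g t = w) ⊆ Fintype.piFinset S := by
      intro t ht
      rw [mem_filter] at ht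
      obtain ⟨ht, rfl⟩ := ht
      rw [Fintype.mem_piFinset]
      exact fun j => hS1 j _ (hcl t ht j)
    calc (((F.filter (fun t => g t = w)).card : ℕ) : ℝ) ≤ ((Fintype.piFinset S).card : ℝ) := by
          exact_mod_cast card_le_card h1
      _ = ∏ j, ((S j).card : ℝ) := by
          rw [Fintype.card_piFinset]
          push_cast
          rfl
      _ ≤ ∏ _j : Fin k, ((4 * A + 2) * (T : ℝ) ^ θ) := by
          apply prod_le_prod (fun _ _ => Nat.cast_nonneg _) (fun j _ => ?_)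
          refine (hS2 j).trans ?_
          nlinarith
      _ = ((4 * A + 2) * (T : ℝ) ^ θ) ^ k := by rw [prod_const, card_univ, Fintype.card_fin]
  have hcard : (F.card : ℝ) = ∑ w ∈ F.image g, (((F.filter (fun t => g t = w)).card : ℕ) : ℝ) := by
    exact_mod_cast card_eq_sum_card_image g F
  calc (F.card : ℝ) = _ := hcard
    _ ≤ ∑ _w ∈ F.image g, ((4 * A + 2) * (T : ℝ) ^ θ) ^ k := sum_le_sum hfib
    _ = ((F.image g).card : ℝ) * ((4 * A + 2) * (T : ℝ) ^ θ) ^ k := by rw [sum_const, nsmul_eq_mul]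
    _ ≤ (C * ((1 + A) * T) ^ s) * ((4 * A + 2) * (T : ℝ) ^ θ) ^ k := mul_le_mul_of_nonneg_right hI (by positivity)
    _ = C * (1 + A) ^ s * (4 * A + 2) ^ k * (T : ℝ) ^ (s + k * θ) := by
        rw [Real.mul_rpow (by positivity) hT0.le, mul_pow, Real.rpow_add hT0, mul_comm (k : ℝ) θ, Real.rpow_mul hT0.le,
          Real.rpow_natCast]
        ring

/-- **Products of linear forms near the sizes of bad objects.** -/
theorem near_products {k b : ℕ} (hk : 1 ≤ k) (hb : 1 ≤ b) {s θ A C c' : ℝ} (hθ : 0 ≤ θ) (hθ1 : θ ≤ 1)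
    (hA : 0 ≤ A) (hC : 0 ≤ C) (hc0 : 0 ≤ c') (hc1 : c' ≤ 1) (hc' : c' < b * (k - s - k * θ)) :
    ∃ C' : ℝ, 0 ≤ C' ∧ ∀ (ι : Type) (Bad : ι → Prop) (φ : ι → Fin k → ℝ) (W : Set (Fin k → ℤ)),
      (∀ X : ℝ, 1 ≤ X → ∀ F : Finset ι, (∀ i ∈ F, Bad i ∧ ∀ j, φ i j ≤ X) → (F.card : ℝ) ≤ C * X ^ s) →
      (∀ t ∈ W, ∃ i, Bad i ∧ Close A θ t (φ i)) →
      (∀ d X K : ℕ, 1 ≤ X → 1 ≤ K →
        (({x : Fin d → ℤ | (∀ j, |x j| ≤ X) ∧ x ∈ Hits (ProductIn b W) d K}.ncard : ℕ) : ℝ) ≤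
          C' * (((d : ℝ) + 1) ^ (k * b) * 3 ^ ((k * b + 1) * (d + 1))) * (K : ℝ) ^ (k * b * (d + 2)) *
            (X : ℝ) ^ ((d : ℝ) - c')) ∧
      (∀ d : ℕ, 1 ≤ d → ∀ N : ℕ → ℝ, Lacunary N → ∀ η : ℝ, 0 ≤ η →
        Generic ((d : ℝ) - c' + k * b * (d + 2) * η) (fun α : Fin d → ℝ => Avoids (ProductIn b W) N η α)) ∧
      ∀ d : ℕ, 1 ≤ d → ∀ N : ℕ → ℝ, Lacunary N → ∀ η : ℝ, 0 ≤ η → k * b * (d + 2) * η < c' →
        ∀ᵐ α : Fin d → ℝ, Avoids (ProductIn b W) N η α := by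
  obtain ⟨C', hC', key⟩ := products_of_forms (k := k) (b := b) hk hb (C := C * (1 + A) ^ s * (4 * A + 2) ^ k)
    (c := k - (s + k * θ)) (c' := c') (by positivity) hc0 hc1 (by linarith)
  refine ⟨C', hC', fun ι Bad φ W h hW => key W ?_⟩
  intro T hT F hF
  have h1 := few_close hθ hθ1 hA hC h T hT F fun t ht => ⟨hW t (hF t ht).1, (hF t ht).2⟩
  have e : (k : ℝ) - (k - (s + k * θ)) = s + k * θ := by ring
  rw [e]
  exact h1

/-- **One size.** -/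
theorem near_one {b : ℕ} (hb : 1 ≤ b) {s θ A c' : ℝ} (hs : 0 ≤ s) (hθ : 0 ≤ θ) (hA : 0 ≤ A) (hc0 : 0 ≤ c') (hc1 : c' ≤ 1)
    (hc' : c' < b * (1 - s - θ)) {ι : Type} {Bad : ι → Prop} {f : ι → ℝ}
    (h : ∀ δ : ℝ, 0 < δ → ∃ C : ℝ, ∀ X : ℝ, 1 ≤ X → {i | Bad i ∧ f i ≤ X}.Finite ∧
      (({i | Bad i ∧ f i ≤ X}.ncard : ℕ) : ℝ) ≤ C * X ^ (s + δ)) {W : Set (Fin 1 → ℤ)}
    (hW : ∀ t ∈ W, ∃ i, Bad i ∧ |f i - (|(t 0 : ℝ)|)| ≤ A * |(t 0 : ℝ)| ^ θ) :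
    (∃ C : ℝ, ∀ d X K : ℕ, 1 ≤ X → 1 ≤ K →
      (({x : Fin d → ℤ | (∀ j, |x j| ≤ X) ∧ x ∈ Hits (ProductIn b W) d K}.ncard : ℕ) : ℝ) ≤
        C * (((d : ℝ) + 1) ^ b * 3 ^ ((b + 1) * (d + 1))) * (K : ℝ) ^ (b * (d + 2)) * (X : ℝ) ^ ((d : ℝ) - c')) ∧
    (∀ d : ℕ, 1 ≤ d → ∀ N : ℕ → ℝ, Lacunary N → ∀ η : ℝ, 0 ≤ η →
      Generic ((d : ℝ) - c' + b * (d + 2) * η) (fun α : Fin d → ℝ => Avoids (ProductIn b W) N η α)) ∧
    ∀ d : ℕ, 1 ≤ d → ∀ N : ℕ → ℝ, Lacunary N → ∀ η : ℝ, 0 ≤ η → b * (d + 2) * η < c' →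
      ∀ᵐ α : Fin d → ℝ, Avoids (ProductIn b W) N η α := by
  have hb1 : (1 : ℝ) ≤ b := by exact_mod_cast hb
  obtain ⟨δ, hδ, hδ2⟩ : ∃ δ : ℝ, 0 < δ ∧ c' < b * (1 - (s + δ) - θ) := by
    refine ⟨(b * (1 - s - θ) - c') / (2 * b), div_pos (by linarith) (by linarith), ?_⟩
    have e : b * (1 - (s + (b * (1 - s - θ) - c') / (2 * b)) - θ) = b * (1 - s - θ) - (b * (1 - s - θ) - c') / 2 := by
      field_simp
      ring
    rw [e]
    linarith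
  obtain ⟨C, hC⟩ := h δ hδ
  have hθ1 : θ ≤ 1 := by
    by_contra hcon
    push Not at hcon
    have : b * (1 - (s + δ) - θ) ≤ 0 := mul_nonpos_of_nonneg_of_nonpos (by linarith) (by linarith)
    linarith
  obtain ⟨C', -, key⟩ := near_products (k := 1) (b := b) le_rfl hb (s := s + δ) (θ := θ) (A := A) (C := |C|) (c' := c')
    hθ hθ1 hA (abs_nonneg C) hc0 hc1 (by
      rw [Nat.cast_one, one_mul]
      exact hδ2)
  have h1 := key ι Bad (fun i _ => f i) W (by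
    intro X hX F hF
    obtain ⟨h1, h2⟩ := hC X hX
    have h3 := Set.ncard_le_ncard (s := (F : Set ι)) (t := {i | Bad i ∧ f i ≤ X})
      (fun i hi => ⟨(hF i hi).1, (hF i hi).2 0⟩) h1
    rw [Set.ncard_coe_finset] at h3
    calc (F.card : ℝ) ≤ (({i | Bad i ∧ f i ≤ X}.ncard : ℕ) : ℝ) := by exact_mod_cast h3
      _ ≤ C * X ^ (s + δ) := h2
      _ ≤ |C| * X ^ (s + δ) := mul_le_mul_of_nonneg_right (le_abs_self C) (by positivity)) (by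
    intro t ht
    obtain ⟨i, hi, hit⟩ := hW t ht
    refine ⟨i, hi, fun j => ?_⟩
    have hj : j = 0 := Subsingleton.elim _ _
    rw [hj]
    refine hit.trans (mul_le_mul_of_nonneg_left ?_ hA)
    apply Real.rpow_le_rpow (abs_nonneg _) _ hθ
    have := norm_le_pi_norm (fun i => (t i : ℝ)) 0
    rwa [Real.norm_eq_abs] at this)
  simp only [one_mul, Nat.cast_one] at h1
  exact ⟨⟨C', h1.1⟩, h1.2⟩

/-- **Natural numbers.** -/
theorem near_nat {b : ℕ} (hb : 1 ≤ b) {s θ A c' : ℝ} (hs : 0 ≤ s) (hθ : 0 ≤ θ) (hA : 0 ≤ A) (hc0 : 0 ≤ c') (hc1 : c' ≤ 1)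
    (hc' : c' < b * (1 - s - θ)) {Bad : ℕ → Prop}
    (h : ∀ δ : ℝ, 0 < δ → ∃ C : ℝ, ∀ X : ℕ, 1 ≤ X →
      (({t : ℕ | 1 ≤ t ∧ t ≤ X ∧ Bad t}.ncard : ℕ) : ℝ) ≤ C * (X : ℝ) ^ (s + δ)) {W : Set (Fin 1 → ℤ)}
    (hW : ∀ t ∈ W, ∃ q : ℕ, 1 ≤ q ∧ Bad q ∧ |(q : ℝ) - (|(t 0 : ℝ)|)| ≤ A * |(t 0 : ℝ)| ^ θ) :
    (∃ C : ℝ, ∀ d X K : ℕ, 1 ≤ X → 1 ≤ K →
      (({x : Fin d → ℤ | (∀ j, |x j| ≤ X) ∧ x ∈ Hits (ProductIn b W) d K}.ncard : ℕ) : ℝ) ≤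
        C * (((d : ℝ) + 1) ^ b * 3 ^ ((b + 1) * (d + 1))) * (K : ℝ) ^ (b * (d + 2)) * (X : ℝ) ^ ((d : ℝ) - c')) ∧
    (∀ d : ℕ, 1 ≤ d → ∀ N : ℕ → ℝ, Lacunary N → ∀ η : ℝ, 0 ≤ η →
      Generic ((d : ℝ) - c' + b * (d + 2) * η) (fun α : Fin d → ℝ => Avoids (ProductIn b W) N η α)) ∧
    ∀ d : ℕ, 1 ≤ d → ∀ N : ℕ → ℝ, Lacunary N → ∀ η : ℝ, 0 ≤ η → b * (d + 2) * η < c' →
      ∀ᵐ α : Fin d → ℝ, Avoids (ProductIn b W) N η α := by
  refine near_one hb hs hθ hA hc0 hc1 hc' (Bad := fun q : ℕ => 1 ≤ q ∧ Bad q) (f := fun q => (q : ℝ)) (fun δ hδ => ?_)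
    fun t ht => ?_
  · obtain ⟨C, hC⟩ := h δ hδ
    refine ⟨|C|, fun X hX => ?_⟩
    have e : {q : ℕ | (1 ≤ q ∧ Bad q) ∧ (q : ℝ) ≤ X} = {t : ℕ | 1 ≤ t ∧ t ≤ ⌊X⌋₊ ∧ Bad t} := by
      ext q
      simp only [Set.mem_ofPred_eq]
      rw [Nat.le_floor_iff (by linarith)]
      tauto
    rw [e]
    refine ⟨(Set.finite_Icc 1 ⌊X⌋₊).subset fun q hq => ⟨hq.1, hq.2.1⟩, ?_⟩
    have h1 : 1 ≤ ⌊X⌋₊ := Nat.le_floor (by simpa using hX)
    calc _ ≤ C * (⌊X⌋₊ : ℝ) ^ (s + δ) := hC _ h1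
      _ ≤ |C| * X ^ (s + δ) := mul_le_mul (le_abs_self _)
          (Real.rpow_le_rpow (Nat.cast_nonneg _) (Nat.floor_le (by linarith)) (by linarith)) (by positivity) (abs_nonneg _)
  · obtain ⟨q, h1, h2, h3⟩ := hW t ht
    exact ⟨q, ⟨h1, h2⟩, h3⟩

end Run7.h95.NP
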